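import Mathlib

/-!
# Genus-`g` set partitions with three blocks
-/

namespace Pool.Agent.Results.MP_752880_co.ThreeBlocks

open Equiv Equiv.Perm Finset

/-! ### Definitions -/

open scoped Classical in
/-- The next element of the block of `i` (the equivalence relation `s` on `Fin n` stands for the
set partition into its classes, the blocks), each block being traversed in increasing order: the
least larger element of the block of `i` if there is one, and otherwise the least element of the
block. -/
noncomputable def nxt {n : ℕ} (s : Setoid (Fin n)) (i : Fin n) : Fin n :=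
  if h : ({j | i < j ∧ s i j} : Finset (Fin n)).Nonempty then
    ({j | i < j ∧ s i j} : Finset (Fin n)).min' h
  else ({j | s i j} : Finset (Fin n)).min' ⟨i, by simp⟩

open scoped Classical in
theorem nxt_of_lt {n : ℕ} (s : Setoid (Fin n)) (i j : Fin n) (hij : i < j) (hs : s i j)
    (hmin : ∀ k, i < k → s i k → j ≤ k) : nxt s i = j := by
  have h : ({j | i < j ∧ s i j} : Finset (Fin n)).Nonempty := ⟨j, by simp [hij, hs]⟩
  unfold nxt
  rw [dif_pos h]
  apply le_antisymm
  · exact min'_le _ _ (by simp [hij, hs])
  · apply le_min'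
    intro k hk
    simp only [mem_filter, mem_univ, true_and] at hk
    exact hmin k hk.1 hk.2

open scoped Classical in
theorem nxt_of_max {n : ℕ} (s : Setoid (Fin n)) (i j : Fin n) (hmax : ∀ k, s i k → k ≤ i)
    (hs : s i j) (hmin : ∀ k, s i k → j ≤ k) : nxt s i = j := by
  have h : ¬ ({j | i < j ∧ s i j} : Finset (Fin n)).Nonempty := by
    rintro ⟨k, hk⟩
    simp only [mem_filter, mem_univ, true_and] at hk
    exact absurd (hmax k hk.2) (not_le.2 hk.1)
  unfold nxt
  rw [dif_neg h]
  apply le_antisymm
  · exact min'_le _ _ (by simp [hs])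
  · apply le_min'
    intro k hk
    simp only [mem_filter, mem_univ, true_and] at hk
    exact hmin k hk

open scoped Classical in
theorem nxt_cases {n : ℕ} (s : Setoid (Fin n)) (i : Fin n) :
    s i (nxt s i) ∧ ((i < nxt s i ∧ ∀ k, i < k → s i k → nxt s i ≤ k) ∨
      ((∀ k, s i k → k ≤ i) ∧ ∀ k, s i k → nxt s i ≤ k)) := by
  by_cases h : ({j | i < j ∧ s i j} : Finset (Fin n)).Nonempty
  · have h1 : nxt s i = ({j | i < j ∧ s i j} : Finset (Fin n)).min' h := by
      unfold nxt; rw [dif_pos h]
    have h2 := min'_mem _ h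
    rw [← h1] at h2
    simp only [mem_filter, mem_univ, true_and] at h2
    refine ⟨h2.2, Or.inl ⟨h2.1, fun k hk hs => ?_⟩⟩
    rw [h1]
    exact min'_le _ _ (by simp [hk, hs])
  · have h1 : nxt s i = ({j | s i j} : Finset (Fin n)).min' ⟨i, by simp⟩ := by
      unfold nxt; rw [dif_neg h]
    have h2 := min'_mem ({j | s i j} : Finset (Fin n)) ⟨i, by simp⟩
    rw [← h1] at h2
    simp only [mem_filter, mem_univ, true_and] at h2
    refine ⟨h2, Or.inr ⟨fun k hk => ?_, fun k hk => ?_⟩⟩
    · by_contra hlt
      exact h ⟨k, by simp [hk, not_le.1 hlt]⟩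
    · rw [h1]
      exact min'_le _ _ (by simp [hk])

theorem nxt_injective {n : ℕ} (s : Setoid (Fin n)) : Function.Injective (nxt s) := by
  have key : ∀ i i' : Fin n, i < i' → nxt s i ≠ nxt s i' := by
    intro i i' hlt heq
    obtain ⟨h1, h2⟩ := nxt_cases s i
    obtain ⟨h1', h2'⟩ := nxt_cases s i'
    rw [← heq] at h1' h2'
    have hs : s i i' := s.trans h1 (s.symm h1')
    rcases h2 with ⟨ha, hb⟩ | ⟨ha, hb⟩
    · have := hb i' hlt hs
      rcases h2' with ⟨hc, hd⟩ | ⟨hc, hd⟩
      · exact absurd this (not_le.2 hc)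
      · have := hd i (s.symm hs)
        exact absurd this (not_le.2 ha)
    · exact absurd (ha i' hs) (not_le.2 hlt)
  intro i i' h
  rcases lt_trichotomy i i' with h1 | h1 | h1
  · exact absurd h (key i i' h1)
  · exact h1
  · exact absurd h.symm (key i' i h1)

/-- The permutation `τ_α`, whose cycles are the blocks, each traversed in increasing order. -/
noncomputable def tau {n : ℕ} (s : Setoid (Fin n)) : Perm (Fin n) :=
  Equiv.ofBijective (nxt s) (Finite.injective_iff_bijective.1 (nxt_injective s))

/-- The number of cycles of a permutation (fixed points count as cycles). -/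
def cycles {n : ℕ} (π : Perm (Fin n)) : ℕ := Multiset.card π.partition.parts

/-- The set partition `s` has genus `g`: `c(τ) + c(τ⁻¹σ) + c(σ) = n + 2 - 2g`, where `σ` is the
long cycle `(1,2,…,n)`. -/
def HasGenus {n : ℕ} (s : Setoid (Fin n)) (g : ℕ) : Prop :=
  cycles (tau s) + cycles ((tau s)⁻¹ * finRotate n) + cycles (finRotate n) + 2 * g = n + 2

/-- `S_{n,k}^{(g)}`: the number of set partitions of `[n]` into `k` blocks, of genus `g`. -/
noncomputable def S (n k g : ℕ) : ℕ :=
  Nat.card {s : Setoid (Fin n) // Nat.card (Quotient s) = k ∧ HasGenus s g}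

/-! ### Cycle counts -/

theorem cycles_eq {n : ℕ} (π : Perm (Fin n)) :
    cycles π = Multiset.card π.cycleType + (n - π.support.card) := by
  unfold cycles
  rw [parts_partition, Multiset.card_add, Multiset.card_replicate, Fintype.card_fin]

theorem sign_eq {n : ℕ} (π : Perm (Fin n)) : sign π = (-1) ^ (n + cycles π) := by
  have h := Finset.card_le_univ π.support
  rw [Fintype.card_fin] at h
  rw [cycles_eq, sign_of_cycleType, sum_cycleType]
  have : n + (Multiset.card π.cycleType + (n - π.support.card)) =
      π.support.card + Multiset.card π.cycleType + 2 * (n - π.support.card) := by omega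
  rw [this, pow_add _ _ (2 * _), pow_mul]
  simp

theorem cycles_finRotate (n : ℕ) (hn : 1 ≤ n) : cycles (finRotate n) = 1 := by
  match n, hn with
  | 1, _ =>
    rw [cycles_eq, Subsingleton.elim (finRotate 1) 1]
    simp
  | n + 2, _ =>
    rw [cycles_eq, cycleType_finRotate, support_finRotate]
    simp

open scoped Classical in
/-- The number of cycles is the number of orbits. -/
theorem cycles_eq_orbits {n : ℕ} (π : Perm (Fin n)) :
    cycles π = Nat.card (Quotient (SameCycle.setoid π)) := by
  let F : Fin n → (↥π.cycleFactorsFinset ⊕ {x : Fin n // π x = x}) := fun x =>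
    if h : π x = x then Sum.inr ⟨x, h⟩ else Sum.inl ⟨cycleOf π x, by
      rw [cycleOf_mem_cycleFactorsFinset_iff, mem_support]; exact h⟩
  have hF : ∀ x y, F x = F y ↔ SameCycle π x y := by
    intro x y
    by_cases hx : π x = x
    · have e1 : F x = Sum.inr ⟨x, hx⟩ := dif_pos hx
      by_cases hy : π y = y
      · have e2 : F y = Sum.inr ⟨y, hy⟩ := dif_pos hy
        rw [e1, e2]
        constructor
        · intro h
          have := Sum.inr.inj h
          rw [Subtype.mk.injEq] at this
          rw [this]
        · intro h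
          have := (SameCycle.eq_of_left h hx)
          subst this
          rfl
      · have e2 : F y = Sum.inl ⟨cycleOf π y, by
          rw [cycleOf_mem_cycleFactorsFinset_iff, mem_support]; exact hy⟩ := dif_neg hy
        rw [e1, e2]
        constructor
        · intro h
          cases h
        · intro h
          have := (SameCycle.eq_of_left h hx)
          subst this
          exact absurd hx hy
    · have e1 : F x = Sum.inl ⟨cycleOf π x, by
          rw [cycleOf_mem_cycleFactorsFinset_iff, mem_support]; exact hx⟩ := dif_neg hx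
      by_cases hy : π y = y
      · have e2 : F y = Sum.inr ⟨y, hy⟩ := dif_pos hy
        rw [e1, e2]
        constructor
        · intro h
          cases h
        · intro h
          have := (SameCycle.eq_of_right h hy)
          subst this
          exact absurd hy hx
      · have e2 : F y = Sum.inl ⟨cycleOf π y, by
          rw [cycleOf_mem_cycleFactorsFinset_iff, mem_support]; exact hy⟩ := dif_neg hy
        rw [e1, e2]
        constructor
        · intro h
          have h2 := Sum.inl.inj h
          rw [Subtype.mk.injEq] at h2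
          exact (sameCycle_iff_cycleOf_eq_of_mem_support (mem_support.2 hx)
            (mem_support.2 hy)).2 h2
        · intro h
          congr 2
          exact h.cycleOf_eq
  have hbij : Function.Bijective (Quotient.lift (s := SameCycle.setoid π) F
      (fun x y h => (hF x y).2 h)) := by
    constructor
    · intro a b
      induction a using Quotient.inductionOn with
      | h x =>
        induction b using Quotient.inductionOn with
        | h y =>
          intro h
          exact Quotient.sound ((hF x y).1 h)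
    · rintro (⟨c, hc⟩ | ⟨x, hx⟩)
      · obtain ⟨x, hx⟩ := (mem_cycleFactorsFinset_iff.1 hc).1.nonempty_support
        have h1 : c = cycleOf π x := cycle_is_cycleOf hx hc
        refine ⟨Quotient.mk _ x, ?_⟩
        have hx' : ¬ π x = x := mem_support.1 (mem_cycleFactorsFinset_support_le hc hx)
        change F x = _
        have e1 : F x = Sum.inl ⟨cycleOf π x, by
          rw [cycleOf_mem_cycleFactorsFinset_iff, mem_support]; exact hx'⟩ := dif_neg hx'
        rw [e1]
        congr 2
        exact h1.symm
      · refine ⟨Quotient.mk _ x, ?_⟩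
        exact dif_pos hx
  rw [Nat.card_congr (Equiv.ofBijective _ hbij), Nat.card_sum, Nat.card_eq_fintype_card,
    Nat.card_eq_fintype_card, Fintype.card_coe, cycles_eq, cycleType_def, Multiset.card_map]
  congr 1
  rw [Fintype.card_subtype]
  have h1 : (univ.filter fun x => π x = x) = π.supportᶜ := by
    ext x
    simp
  rw [h1, card_compl, Fintype.card_fin]

/-! ### The permutation `τ` -/

theorem tau_apply {n : ℕ} (s : Setoid (Fin n)) (i : Fin n) : tau s i = nxt s i := rfl

open scoped Classical in
theorem sameCycle_min {n : ℕ} (s : Setoid (Fin n)) (m : Fin n) (hm : ∀ k, s m k → m ≤ k) :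
    ∀ j, s m j → SameCycle (tau s) m j := by
  intro j
  induction j using WellFoundedLT.induction with
  | ind j ih =>
    intro hj
    rcases eq_or_lt_of_le (hm j hj) with h | h
    · rw [h]
    · have hne : ({q | q < j ∧ s m q} : Finset (Fin n)).Nonempty := ⟨m, by simp [h]⟩
      obtain ⟨hq1, hq2⟩ : (({q | q < j ∧ s m q} : Finset (Fin n)).max' hne) < j ∧
          s m (({q | q < j ∧ s m q} : Finset (Fin n)).max' hne) := by
        simpa using max'_mem _ hne
      have hq3 : ∀ q, q < j → s m q → q ≤ (({q | q < j ∧ s m q} : Finset (Fin n)).max' hne) :=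
        fun q h1 h2 => le_max' _ _ (by simp [h1, h2])
      generalize (({q | q < j ∧ s m q} : Finset (Fin n)).max' hne) = q at hq1 hq2 hq3
      have h1 : tau s q = j := by
        apply nxt_of_lt s q j hq1 (s.trans (s.symm hq2) hj)
        intro k hk hsk
        by_contra hlt
        exact absurd (hq3 k (not_le.1 hlt) (s.trans hq2 hsk)) (not_le.2 hk)
      have h2 := ih q hq1 hq2
      rw [← h1, sameCycle_apply_right]
      exact h2

open scoped Classical in
theorem exists_min {n : ℕ} (s : Setoid (Fin n)) (i : Fin n) : ∃ m, s i m ∧ ∀ k, s i k → m ≤ k := by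
  have hne : ({j | s i j} : Finset (Fin n)).Nonempty := ⟨i, by simp⟩
  refine ⟨({j | s i j} : Finset (Fin n)).min' hne, by simpa using min'_mem _ hne,
    fun k hk => min'_le _ _ (by simpa using hk)⟩

theorem tau_rel {n : ℕ} (s : Setoid (Fin n)) (i : Fin n) : s i (tau s i) := (nxt_cases s i).1

theorem sameCycle_iff {n : ℕ} (s : Setoid (Fin n)) (i j : Fin n) :
    SameCycle (tau s) i j ↔ s i j := by
  constructor
  · rintro ⟨m, hm⟩
    have key : ∀ m : ℤ, s i ((tau s ^ m) i) := by
      intro m
      induction m using Int.induction_on with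
      | zero => simp
      | succ m ih =>
        rw [add_comm, zpow_add, zpow_one, Perm.mul_apply]
        exact s.trans ih (tau_rel s _)
      | pred m ih =>
        have h := tau_rel s ((tau s ^ (-(m : ℤ) - 1)) i)
        rw [← Perm.mul_apply, ← zpow_one_add] at h
        have e : 1 + (-(m : ℤ) - 1) = -m := by ring
        rw [e] at h
        exact s.trans ih (s.symm h)
    rw [← hm]
    exact key m
  · intro h
    obtain ⟨m, hm1, hm2⟩ := exists_min s i
    have hm3 : ∀ k, s m k → m ≤ k := fun k hk => hm2 k (s.trans hm1 hk)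
    exact ((sameCycle_min s m hm3 i (s.symm hm1)).symm).trans
      (sameCycle_min s m hm3 j (s.trans (s.symm hm1) h))

theorem cycles_tau {n : ℕ} (s : Setoid (Fin n)) : cycles (tau s) = Nat.card (Quotient s) := by
  rw [cycles_eq_orbits]
  have : SameCycle.setoid (tau s) = s := by
    ext i j
    exact sameCycle_iff s i j
  rw [this]


/-! ### The permutation `φ = τ⁻¹ σ` -/

/-- The permutation `φ = τ⁻¹ σ`. -/
noncomputable def phi {n : ℕ} (s : Setoid (Fin n)) : Perm (Fin n) := (tau s)⁻¹ * finRotate n

theorem tau_phi {n : ℕ} (s : Setoid (Fin n)) (i : Fin n) : tau s (phi s i) = finRotate n i := by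
  unfold phi
  rw [Perm.mul_apply]
  exact (tau s).apply_symm_apply _

/-- fixed points of `φ` -/
theorem phi_fixed {n : ℕ} (s : Setoid (Fin (n + 1))) (i : Fin (n + 1)) :
    phi s i = i ↔ s i (finRotate (n + 1) i) := by
  constructor
  · intro h
    have := tau_rel s i
    rw [← h, tau_phi, h] at this
    exact this
  · intro h
    apply (tau s).injective
    rw [tau_phi]
    symm
    rw [tau_apply]
    rcases eq_or_lt_of_le (Fin.le_last i) with hi | hi
    · subst hi
      rw [finRotate_last] at h ⊢
      exact nxt_of_max s _ _ (fun k _ => Fin.le_last k) h (fun k _ => Fin.zero_le k)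
    · have h1 : ((finRotate (n + 1)) i : ℕ) = i + 1 := coe_finRotate_of_ne_last hi.ne
      apply nxt_of_lt s _ _ _ h
      · intro k hk _
        rw [Fin.le_def, h1]
        exact hk
      · rw [Fin.lt_def, h1]
        exact Nat.lt_succ_self _

/-- an element which `φ` moves up -/
theorem phi_up {n : ℕ} (s : Setoid (Fin (n + 1))) (i : Fin (n + 1)) (h : i < phi s i) :
    (i < finRotate (n + 1) i) ∧ ∀ k, s (finRotate (n + 1) i) k → finRotate (n + 1) i ≤ k := by
  have hi : i ≠ Fin.last n := by
    intro hi
    rw [hi] at h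
    exact absurd h (not_lt.2 (Fin.le_last _))
  have h1 : ((finRotate (n + 1)) i : ℕ) = i + 1 := coe_finRotate_of_ne_last hi
  have hlt : i < finRotate (n + 1) i := by
    rw [Fin.lt_def, h1]
    exact Nat.lt_succ_self _
  refine ⟨hlt, ?_⟩
  have h2 := nxt_cases s (phi s i)
  rw [← tau_apply, tau_phi] at h2
  obtain ⟨h3, ⟨h4, -⟩ | ⟨h4, h5⟩⟩ := h2
  · exfalso
    rw [Fin.lt_def, h1] at h4
    rw [Fin.lt_def] at h
    omega
  · intro k hk
    exact h5 k (s.trans h3 hk)

open scoped Classical in
/-- `φ` has at most `k - 1` nontrivial cycles, where `k` is the number of blocks. -/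
theorem card_cycleType_phi {n : ℕ} (s : Setoid (Fin (n + 1))) :
    Multiset.card (phi s).cycleType + 1 ≤ Nat.card (Quotient s) := by
  rw [cycleType_def, Multiset.card_map]
  change #(phi s).cycleFactorsFinset + 1 ≤ _
  have hex : ∀ c ∈ (phi s).cycleFactorsFinset, ∃ i ∈ c.support, i < phi s i := by
    intro c hc
    have hne := (mem_cycleFactorsFinset_iff.1 hc).1.nonempty_support
    refine ⟨c.support.min' hne, min'_mem _ _, ?_⟩
    have h1 := min'_mem _ hne
    have h2 : c (c.support.min' hne) = phi s (c.support.min' hne) :=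
      (mem_cycleFactorsFinset_iff.1 hc).2 _ h1
    rw [← h2]
    apply lt_of_le_of_ne
    · exact min'_le _ _ (apply_mem_support.2 h1)
    · exact (mem_support.1 h1).symm
  choose! p hp1 hp2 using hex
  let f : Option ↥(phi s).cycleFactorsFinset → Quotient s := fun o =>
    match o with
    | none => Quotient.mk s 0
    | some c => Quotient.mk s (finRotate (n + 1) (p c))
  have hf : Function.Injective f := by
    have hsome : ∀ c : ↥(phi s).cycleFactorsFinset, f (some c) ≠ f none := by
      intro c h
      have h1 : s (finRotate (n + 1) (p c)) 0 := Quotient.exact h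
      have h2 := phi_up s _ (hp2 c c.2)
      have h3 := h2.2 0 h1
      exact absurd (lt_of_lt_of_le h2.1 h3) (not_lt.2 (Fin.zero_le _))
    intro a b hab
    match a, b with
    | none, none => rfl
    | none, some c => exact absurd hab.symm (hsome c)
    | some c, none => exact absurd hab (hsome c)
    | some c, some d =>
      have h1 : s (finRotate (n + 1) (p c)) (finRotate (n + 1) (p d)) := Quotient.exact hab
      have h2 := (phi_up s _ (hp2 c c.2)).2 _ h1
      have h3 := (phi_up s _ (hp2 d d.2)).2 _ (s.symm h1)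
      have h4 : p c = p d := (finRotate (n + 1)).injective (le_antisymm h2 h3)
      have h5 : (c : Perm (Fin (n + 1))) = d := by
        have e1 := cycle_is_cycleOf (hp1 c c.2) c.2
        have e2 := cycle_is_cycleOf (hp1 d d.2) d.2
        rw [e1, e2, h4]
      rw [Subtype.ext h5]
  have h := Nat.card_le_card_of_injective f hf
  rw [Nat.card_eq_fintype_card, Fintype.card_option, Fintype.card_coe] at h
  exact h

open scoped Classical in
/-- The number of positions at which the block changes (cyclically). -/
noncomputable def changes {n : ℕ} (s : Setoid (Fin (n + 1))) : ℕ :=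
  #{i : Fin (n + 1) | ¬ s i (finRotate (n + 1) i)}

open scoped Classical in
theorem support_phi {n : ℕ} (s : Setoid (Fin (n + 1))) : #(phi s).support = changes s := by
  unfold changes
  congr 1
  ext i
  rw [mem_support, mem_filter, Ne, phi_fixed]
  simp

theorem cycles_phi {n : ℕ} (s : Setoid (Fin (n + 1))) (hs : Nat.card (Quotient s) = 3) :
    cycles (phi s) + changes s = n + 1 + if changes s % 2 = 1 then 1 else 2 := by
  have h1 := card_cycleType_phi s
  rw [hs] at h1
  have hle : changes s ≤ n + 1 := by
    rw [← support_phi]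
    have := card_le_univ (phi s).support
    rwa [Fintype.card_fin] at this
  have h2 : 0 < Multiset.card (phi s).cycleType := by
    rw [card_cycleType_pos]
    intro h
    have hc : ∀ i, s i (finRotate (n + 1) i) := by
      intro i
      rw [← phi_fixed, h]
      rfl
    have hall : ∀ i : Fin (n + 1), s 0 i := by
      intro i
      induction i using Fin.induction with
      | zero => exact s.refl _
      | succ i ih =>
        have := hc i.castSucc
        have e : finRotate (n + 1) i.castSucc = i.succ := by
          ext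
          rw [coe_finRotate_of_ne_last (Fin.castSucc_lt_last i).ne]
          rfl
        rw [e] at this
        exact s.trans ih this
    have : Subsingleton (Quotient s) := by
      constructor
      intro a b
      induction a using Quotient.inductionOn with
      | h x =>
        induction b using Quotient.inductionOn with
        | h y => exact Quotient.sound (s.trans (s.symm (hall x)) (hall y))
    have := Finite.card_le_one_iff_subsingleton.2 this
    omega
  have h3 : (-1 : ℤˣ) ^ (n + 1 + cycles (phi s)) = (-1) ^ (n + 1 + 3) * (-1) ^ (n + 1 + 1) := by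
    rw [← sign_eq]
    unfold phi
    rw [Perm.sign_mul, Perm.sign_inv, sign_eq, sign_eq, cycles_tau, hs, cycles_finRotate _ (by omega)]
  have h4 : (n + 1 + cycles (phi s)) % 2 = 0 := by
    rw [← pow_add] at h3
    have h5 : (-1 : ℤˣ) ^ (n + 1 + 3 + (n + 1 + 1)) = 1 := by
      rw [show n + 1 + 3 + (n + 1 + 1) = 2 * (n + 3) by ring, pow_mul]
      simp
    rw [h5] at h3
    by_contra hodd
    have : Odd (n + 1 + cycles (phi s)) := by rw [Nat.odd_iff]; omega
    rw [this.neg_one_pow] at h3
    exact absurd h3 (by decide)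
  rw [cycles_eq, support_phi] at h4 ⊢
  split_ifs with h5 <;> omega


/-! ### Counting words by changes -/

section Words

open Polynomial

variable {α : Type*} [Fintype α] [DecidableEq α]

/-- number of changes of a cyclic word -/
def ch {n : ℕ} (w : Fin (n + 1) → α) : ℕ := #{i : Fin (n + 1) | w i ≠ w (finRotate (n + 1) i)}

/-- weight of a step -/
noncomputable def om (a b : α) : ℚ[X] := if a = b then 1 else X

/-- weight of an open word -/
noncomputable def wt {n : ℕ} (w : Fin (n + 1) → α) : ℚ[X] := ∏ i : Fin n, om (w i.castSucc) (w i.succ)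

omit [Fintype α] in
theorem X_pow_ch {n : ℕ} (w : Fin (n + 1) → α) : (X : ℚ[X]) ^ ch w = wt w * om (w (Fin.last n)) (w 0) := by
  have h1 : (X : ℚ[X]) ^ ch w = ∏ i : Fin (n + 1), om (w i) (w (finRotate (n + 1) i)) := by
    unfold ch om
    rw [card_filter, ← Finset.prod_pow_eq_pow_sum]
    apply Finset.prod_congr rfl
    intro i _
    by_cases h : w i = w (finRotate (n + 1) i)
    · rw [if_pos h, if_neg (not_not.2 h), pow_zero]
    · rw [if_neg h, if_pos h, pow_one]
  rw [h1, Fin.prod_univ_castSucc, finRotate_last]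
  congr 1
  unfold wt
  apply Finset.prod_congr rfl
  intro i _
  congr 2
  ext
  rw [coe_finRotate_of_ne_last (Fin.castSucc_lt_last i).ne]
  rfl

/-- the transfer matrix power -/
noncomputable def P : ℕ → α → α → ℚ[X]
  | 0, a, b => if a = b then 1 else 0
  | m + 1, a, b => ∑ c, om a c * P m c b

theorem sum_words (m : ℕ) (f : α → α → ℚ[X]) :
    ∑ w : Fin (m + 1) → α, wt w * f (w 0) (w (Fin.last m)) = ∑ a, ∑ b, P m a b * f a b := by
  induction m generalizing f with
  | zero =>
    rw [← (Equiv.funUnique (Fin 1) α).symm.sum_comp]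
    apply Finset.sum_congr rfl
    intro a _
    rw [Finset.sum_eq_single a]
    · simp [wt, P]
    · intro b _ hb
      simp [P, hb.symm]
    · intro h
      exact absurd (Finset.mem_univ _) h
  | succ m ih =>
    rw [← (Fin.consEquiv (fun _ : Fin (m + 2) => α)).sum_comp, Fintype.sum_prod_type]
    apply Finset.sum_congr rfl
    intro a _
    have h1 : ∀ w : Fin (m + 1) → α, wt (Fin.cons a w : Fin (m + 2) → α) = om a (w 0) * wt w := by
      intro w
      unfold wt
      rw [Fin.prod_univ_succ]
      congr 1
    have h2 : ∀ w : Fin (m + 1) → α,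
        wt ((Fin.consEquiv (fun _ : Fin (m + 2) => α)) (a, w)) *
          f ((Fin.consEquiv (fun _ : Fin (m + 2) => α)) (a, w) 0)
            ((Fin.consEquiv (fun _ : Fin (m + 2) => α)) (a, w) (Fin.last (m + 1))) =
        wt w * (fun c b => om a c * f a b) (w 0) (w (Fin.last m)) := by
      intro w
      change wt (Fin.cons a w : Fin (m + 2) → α) * f a (w (Fin.last m)) = _
      rw [h1]
      ring
    have h3 := ih (fun c b => om a c * f a b)
    simp only [h2]
    rw [h3]
    simp only [P, Finset.sum_mul]
    rw [Finset.sum_comm]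
    apply Finset.sum_congr rfl
    intro b _
    apply Finset.sum_congr rfl
    intro c _
    ring

theorem P_eq (m : ℕ) (a b : α) : (Fintype.card α : ℚ[X]) * P m a b =
    ((1 + ((Fintype.card α : ℚ[X]) - 1) * X) ^ m - (1 - X) ^ m) +
      if a = b then (Fintype.card α : ℚ[X]) * (1 - X) ^ m else 0 := by
  induction m generalizing a with
  | zero => simp [P]
  | succ m ih =>
    have h1 : ∀ c, om a c = X + (if a = c then 1 - X else 0) := by
      intro c
      unfold om
      split_ifs <;> ring
    simp only [P, Finset.mul_sum]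
    have h2 : ∀ c, (Fintype.card α : ℚ[X]) * (om a c * P m c b) =
        X * (((1 + ((Fintype.card α : ℚ[X]) - 1) * X) ^ m - (1 - X) ^ m)) +
        (if c = b then X * ((Fintype.card α : ℚ[X]) * (1 - X) ^ m) else 0) +
        (if a = c then (1 - X) * ((1 + ((Fintype.card α : ℚ[X]) - 1) * X) ^ m - (1 - X) ^ m +
          if c = b then (Fintype.card α : ℚ[X]) * (1 - X) ^ m else 0) else 0) := by
      intro c
      have h3 : (Fintype.card α : ℚ[X]) * (om a c * P m c b) =
        om a c * ((Fintype.card α : ℚ[X]) * P m c b) := by ring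
      rw [h3, ih, h1]
      split_ifs <;> ring
    simp only [h2, Finset.sum_add_distrib, Finset.sum_const, Finset.card_univ, nsmul_eq_mul,
      Finset.sum_ite_eq, Finset.sum_ite_eq', Finset.mem_univ, if_true]
    split_ifs <;> ring

theorem sum_X_pow_ch (n : ℕ) [Nonempty α] : ∑ w : Fin (n + 1) → α, (X : ℚ[X]) ^ ch w =
    (1 + ((Fintype.card α : ℚ[X]) - 1) * X) ^ (n + 1) +
      ((Fintype.card α : ℚ[X]) - 1) * (1 - X) ^ (n + 1) := by
  have hk : (Fintype.card α : ℚ[X]) ≠ 0 := by
    rw [Nat.cast_ne_zero]
    exact Fintype.card_ne_zero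
  apply mul_left_cancel₀ hk
  simp only [X_pow_ch]
  rw [sum_words n (fun a b => om b a), Finset.mul_sum]
  have h1 : ∀ a b : α, om b a = X + (if a = b then 1 - X else 0) := by
    intro a c
    unfold om
    by_cases h : a = c
    · rw [if_pos h, if_pos h.symm]; ring
    · rw [if_neg h, if_neg (fun h' => h h'.symm)]; ring
  have h2 : ∀ a : α, (Fintype.card α : ℚ[X]) * ∑ b, P n a b * om b a =
      (Fintype.card α : ℚ[X]) * X * ((1 + ((Fintype.card α : ℚ[X]) - 1) * X) ^ n - (1 - X) ^ n) +
      X * ((Fintype.card α : ℚ[X]) * (1 - X) ^ n) +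
      (1 - X) * ((1 + ((Fintype.card α : ℚ[X]) - 1) * X) ^ n - (1 - X) ^ n +
        (Fintype.card α : ℚ[X]) * (1 - X) ^ n) := by
    intro a
    rw [Finset.mul_sum]
    have h3 : ∀ b, (Fintype.card α : ℚ[X]) * (P n a b * om b a) =
        X * (((1 + ((Fintype.card α : ℚ[X]) - 1) * X) ^ n - (1 - X) ^ n)) +
        (if a = b then X * ((Fintype.card α : ℚ[X]) * (1 - X) ^ n) else 0) +
        (if a = b then (1 - X) * ((1 + ((Fintype.card α : ℚ[X]) - 1) * X) ^ n - (1 - X) ^ n +
          (Fintype.card α : ℚ[X]) * (1 - X) ^ n) else 0) := by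
      intro b
      have h4 : (Fintype.card α : ℚ[X]) * (P n a b * om b a) =
        om b a * ((Fintype.card α : ℚ[X]) * P n a b) := by ring
      rw [h4, P_eq, h1]
      split_ifs <;> ring
    simp only [h3, Finset.sum_add_distrib, Finset.sum_const, Finset.card_univ, nsmul_eq_mul,
      Finset.sum_ite_eq, Finset.mem_univ, if_true]
    ring
  simp only [h2, Finset.sum_const, Finset.card_univ, nsmul_eq_mul]
  ring

/-- The number of cyclic words with given number of changes. -/
theorem card_words (n L : ℕ) [Nonempty α] :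
    (#{w : Fin (n + 1) → α | ch w = L} : ℚ) =
      (n + 1).choose L * (((Fintype.card α : ℚ) - 1) ^ L + ((Fintype.card α : ℚ) - 1) * (-1) ^ L) := by
  have h := congrArg (fun p : ℚ[X] => p.coeff L) (sum_X_pow_ch (α := α) n)
  simp only [finsetSum_coeff, coeff_X_pow, coeff_add] at h
  have e1 : (∑ w : Fin (n + 1) → α, if L = ch w then (1 : ℚ) else 0) =
      (#{w : Fin (n + 1) → α | ch w = L} : ℚ) := by
    rw [card_filter]
    push_cast
    apply Finset.sum_congr rfl
    intro w _
    by_cases hw : ch w = L
    · rw [if_pos hw, if_pos hw.symm]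
    · rw [if_neg hw, if_neg (fun h => hw h.symm)]
  have key : ∀ a : ℚ, ((1 + C a * X : ℚ[X]) ^ (n + 1)).coeff L = (n + 1).choose L * a ^ L := by
    intro a
    have : (1 + C a * X : ℚ[X]) ^ (n + 1) = ((1 + X) ^ (n + 1)).comp (C a * X) := by
      simp
    rw [this, comp_C_mul_X_coeff, coeff_one_add_X_pow]
  have e2 : (Fintype.card α : ℚ[X]) - 1 = C ((Fintype.card α : ℚ) - 1) := by
    simp
  have e3 : (1 - X : ℚ[X]) = 1 + C (-1) * X := by
    simp
    ring
  rw [e1, e2, e3, key, coeff_C_mul, key] at h
  rw [h]
  ring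

end Words


/-! ### Surjective words and set partitions -/

/-- Words in two of three letters: the number of words avoiding a given letter. -/
theorem card_avoid (n L : ℕ) (c : Fin 3) :
    (#{w : Fin (n + 1) → Fin 3 | ch w = L ∧ ∀ i, w i ≠ c} : ℚ) =
      (n + 1).choose L * (1 + (-1) ^ L) := by
  have hk : ∀ c : Fin 3, Fintype.card {b : Fin 3 // b ≠ c} = 2 := by decide
  have : Nonempty {b : Fin 3 // b ≠ c} := ⟨⟨c + 1, by revert c; decide⟩⟩
  have h := card_words (α := {b : Fin 3 // b ≠ c}) n L
  rw [hk] at h
  have e : #{w : Fin (n + 1) → Fin 3 | ch w = L ∧ ∀ i, w i ≠ c} =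
      #{w : Fin (n + 1) → {b : Fin 3 // b ≠ c} | ch w = L} := by
    symm
    apply Finset.card_bij (fun w _ => fun i => (w i : Fin 3))
    · intro w hw
      simp only [mem_filter, mem_univ, true_and] at hw ⊢
      refine ⟨?_, fun i => (w i).2⟩
      rw [← hw]
      unfold ch
      congr 1
      ext i
      simp only [mem_filter, mem_univ, true_and, Ne, Subtype.ext_iff]
    · intro w _ w' _ h
      funext i
      exact Subtype.ext (congrFun h i)
    · intro w hw
      simp only [mem_filter, mem_univ, true_and] at hw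
      refine ⟨fun i => ⟨w i, hw.2 i⟩, ?_, rfl⟩
      simp only [mem_filter, mem_univ, true_and]
      refine Eq.trans ?_ hw.1
      unfold ch
      congr 1
      ext i
      simp only [mem_filter, mem_univ, true_and, Ne, Subtype.ext_iff]
  rw [e, h]
  norm_num

theorem not_const {n L : ℕ} (hL : 1 ≤ L) (w : Fin (n + 1) → Fin 3) (hw : ch w = L) (a : Fin 3) :
    ¬ ∀ i, w i = a := by
  intro h
  have : ch w = 0 := by
    unfold ch
    rw [card_eq_zero, filter_eq_empty_iff]
    intro i _
    rw [h, h]
    simp
  omega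

theorem card_surj (n L : ℕ) (hL : 1 ≤ L) :
    (#{w : Fin (n + 1) → Fin 3 | ch w = L ∧ Function.Surjective w} : ℚ) =
      (n + 1).choose L * (2 ^ L - (-1) ^ L - 3) := by
  have h := card_words (α := Fin 3) n L
  rw [Fintype.card_fin] at h
  have hsplit : ({w : Fin (n + 1) → Fin 3 | ch w = L} : Finset (Fin (n + 1) → Fin 3)) =
      ({w : Fin (n + 1) → Fin 3 | ch w = L ∧ Function.Surjective w} : Finset (Fin (n + 1) → Fin 3)) ∪
      (({w : Fin (n + 1) → Fin 3 | ch w = L ∧ ∀ i, w i ≠ 0} : Finset (Fin (n + 1) → Fin 3)) ∪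
      (({w : Fin (n + 1) → Fin 3 | ch w = L ∧ ∀ i, w i ≠ 1} : Finset (Fin (n + 1) → Fin 3)) ∪
      ({w : Fin (n + 1) → Fin 3 | ch w = L ∧ ∀ i, w i ≠ 2} : Finset (Fin (n + 1) → Fin 3)))) := by
    ext w
    simp only [mem_filter, mem_univ, true_and, mem_union]
    constructor
    · intro hw
      by_cases hs : Function.Surjective w
      · exact Or.inl ⟨hw, hs⟩
      · right
        unfold Function.Surjective at hs
        push Not at hs
        obtain ⟨c, hc⟩ := hs
        fin_cases c
        · exact Or.inl ⟨hw, hc⟩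
        · exact Or.inr (Or.inl ⟨hw, hc⟩)
        · exact Or.inr (Or.inr ⟨hw, hc⟩)
    · rintro (h | h | h | h) <;> exact h.1
  have hcase : ∀ x : Fin 3, x = 0 ∨ x = 1 ∨ x = 2 := by decide
  have d1 : Disjoint ({w : Fin (n + 1) → Fin 3 | ch w = L ∧ ∀ i, w i ≠ 1} : Finset (Fin (n + 1) → Fin 3))
      ({w : Fin (n + 1) → Fin 3 | ch w = L ∧ ∀ i, w i ≠ 2} : Finset (Fin (n + 1) → Fin 3)) := by
    rw [Finset.disjoint_left]
    intro w h1 h2
    simp only [mem_filter, mem_univ, true_and] at h1 h2
    apply not_const hL w h1.1 0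
    intro i
    rcases hcase (w i) with h | h | h
    · exact h
    · exact absurd h (h1.2 i)
    · exact absurd h (h2.2 i)
  have d0 : Disjoint ({w : Fin (n + 1) → Fin 3 | ch w = L ∧ ∀ i, w i ≠ 0} : Finset (Fin (n + 1) → Fin 3))
      (({w : Fin (n + 1) → Fin 3 | ch w = L ∧ ∀ i, w i ≠ 1} : Finset (Fin (n + 1) → Fin 3)) ∪
      ({w : Fin (n + 1) → Fin 3 | ch w = L ∧ ∀ i, w i ≠ 2} : Finset (Fin (n + 1) → Fin 3))) := by
    rw [Finset.disjoint_left]
    intro w h1 h2
    simp only [mem_filter, mem_univ, true_and, mem_union] at h1 h2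
    rcases h2 with h2 | h2
    · apply not_const hL w h1.1 2
      intro i
      rcases hcase (w i) with h | h | h
      · exact absurd h (h1.2 i)
      · exact absurd h (h2.2 i)
      · exact h
    · apply not_const hL w h1.1 1
      intro i
      rcases hcase (w i) with h | h | h
      · exact absurd h (h1.2 i)
      · exact h
      · exact absurd h (h2.2 i)
  have ds : Disjoint ({w : Fin (n + 1) → Fin 3 | ch w = L ∧ Function.Surjective w} : Finset (Fin (n + 1) → Fin 3))
      (({w : Fin (n + 1) → Fin 3 | ch w = L ∧ ∀ i, w i ≠ 0} : Finset (Fin (n + 1) → Fin 3)) ∪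
      (({w : Fin (n + 1) → Fin 3 | ch w = L ∧ ∀ i, w i ≠ 1} : Finset (Fin (n + 1) → Fin 3)) ∪
      ({w : Fin (n + 1) → Fin 3 | ch w = L ∧ ∀ i, w i ≠ 2} : Finset (Fin (n + 1) → Fin 3)))) := by
    rw [Finset.disjoint_left]
    intro w h1 h2
    simp only [mem_filter, mem_univ, true_and, mem_union] at h1 h2
    rcases h2 with h2 | h2 | h2
    · obtain ⟨i, hi⟩ := h1.2 0
      exact h2.2 i hi
    · obtain ⟨i, hi⟩ := h1.2 1
      exact h2.2 i hi
    · obtain ⟨i, hi⟩ := h1.2 2
      exact h2.2 i hi
  rw [hsplit, card_union_of_disjoint ds, card_union_of_disjoint d0, card_union_of_disjoint d1] at h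
  push_cast at h
  rw [card_avoid, card_avoid, card_avoid] at h
  have h2 : ((3 : ℚ) - 1) = 2 := by norm_num
  rw [h2] at h
  linear_combination h

/-- Surjective words are set partitions with labelled blocks. -/
theorem labelled (n : ℕ) (Q : Setoid (Fin n) → Prop) :
    Nat.card {w : Fin n → Fin 3 // Function.Surjective w ∧ Q (Setoid.ker w)} =
      6 * Nat.card {s : Setoid (Fin n) // Nat.card (Quotient s) = 3 ∧ Q s} := by
  have hfin : Finite (Setoid (Fin n)) := by
    apply Finite.of_injective (fun s : Setoid (Fin n) => (s.r : Fin n → Fin n → Prop))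
    intro s t h
    exact Setoid.ext fun a b => by
      have := congrFun (congrFun h a) b
      exact iff_of_eq this
  let T := Σ s : {s : Setoid (Fin n) // Nat.card (Quotient s) = 3 ∧ Q s}, (Quotient s.1 ≃ Fin 3)
  have hker : ∀ (s : Setoid (Fin n)) (e : Quotient s ≃ Fin 3),
      Setoid.ker (fun i => e (Quotient.mk s i)) = s := by
    intro s e
    ext a b
    rw [Setoid.ker_def, e.injective.eq_iff]
    exact Quotient.eq
  let F : T → {w : Fin n → Fin 3 // Function.Surjective w ∧ Q (Setoid.ker w)} := fun t =>
    ⟨fun i => t.2 (Quotient.mk t.1.1 i),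
      (t.2.surjective).comp Quotient.mk_surjective, by rw [hker]; exact t.1.2.2⟩
  have hF : Function.Bijective F := by
    constructor
    · rintro ⟨⟨s, hs⟩, e⟩ ⟨⟨s', hs'⟩, e'⟩ h
      have h1 : (fun i => e (Quotient.mk s i)) = (fun i => e' (Quotient.mk s' i)) :=
        congrArg Subtype.val h
      have h2 : s = s' := by rw [← hker s e, ← hker s' e', h1]
      subst h2
      have h3 : e = e' := by
        ext q
        induction q using Quotient.inductionOn with
        | h i => exact congrArg Fin.val (congrFun h1 i)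
      subst h3
      rfl
    · rintro ⟨w, hw1, hw2⟩
      let e : Quotient (Setoid.ker w) ≃ Fin 3 := Setoid.quotientKerEquivOfSurjective w hw1
      refine ⟨⟨⟨Setoid.ker w, ?_, hw2⟩, e⟩, ?_⟩
      · rw [Nat.card_congr e, Nat.card_eq_fintype_card, Fintype.card_fin]
      · apply Subtype.ext
        funext i
        rfl
  rw [← Nat.card_congr (Equiv.ofBijective F hF)]
  change Nat.card (Σ s : {s : Setoid (Fin n) // Nat.card (Quotient s) = 3 ∧ Q s},
    (Quotient s.1 ≃ Fin 3)) = _
  have := Fintype.ofFinite {s : Setoid (Fin n) // Nat.card (Quotient s) = 3 ∧ Q s}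
  rw [Nat.card_sigma]
  have h6 : ∀ s : {s : Setoid (Fin n) // Nat.card (Quotient s) = 3 ∧ Q s},
      Nat.card (Quotient s.1 ≃ Fin 3) = 6 := by
    intro s
    have h1 : Nonempty (Quotient s.1 ≃ Fin 3) := by
      apply Finite.card_eq.1
      rw [s.2.1, Nat.card_eq_fintype_card, Fintype.card_fin]
    obtain ⟨e⟩ := h1
    rw [Nat.card_congr (e.equivCongr (Equiv.refl (Fin 3))), Nat.card_eq_fintype_card,
      Fintype.card_perm, Fintype.card_fin]
    rfl
  simp only [h6, Finset.sum_const, smul_eq_mul, Finset.card_univ]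
  rw [Nat.card_eq_fintype_card, mul_comm]


theorem hasGenus_iff {n : ℕ} (s : Setoid (Fin (n + 1))) (hs : Nat.card (Quotient s) = 3) (g : ℕ) :
    HasGenus s g ↔ changes s = 2 * g + 3 ∨ changes s = 2 * g + 4 := by
  have h := cycles_phi s hs
  unfold HasGenus
  change cycles (tau s) + cycles (phi s) + cycles (finRotate (n + 1)) + 2 * g = n + 1 + 2 ↔ _
  rw [cycles_tau, hs, cycles_finRotate _ (by omega)]
  split_ifs at h with h1 <;> omega

theorem changes_ker {n : ℕ} (w : Fin (n + 1) → Fin 3) : changes (Setoid.ker w) = ch w := by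
  unfold changes ch
  congr 1
  ext i
  simp only [mem_filter, mem_univ, true_and, Setoid.ker_def]

theorem six_mul_S (n g : ℕ) : (6 * (S (n + 1) 3 g : ℚ)) =
    (n + 1).choose (2 * g + 3) * (2 ^ (2 * g + 3) - 2) +
    (n + 1).choose (2 * g + 4) * (2 ^ (2 * g + 4) - 4) := by
  have h := labelled (n + 1) (fun s => changes s = 2 * g + 3 ∨ changes s = 2 * g + 4)
  have h1 : S (n + 1) 3 g = Nat.card {s : Setoid (Fin (n + 1)) // Nat.card (Quotient s) = 3 ∧
      (changes s = 2 * g + 3 ∨ changes s = 2 * g + 4)} := by
    unfold S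
    apply Nat.card_congr
    apply Equiv.subtypeEquivRight
    intro s
    constructor
    · rintro ⟨h1, h2⟩
      exact ⟨h1, (hasGenus_iff s h1 g).1 h2⟩
    · rintro ⟨h1, h2⟩
      exact ⟨h1, (hasGenus_iff s h1 g).2 h2⟩
  rw [← h1] at h
  have h2 : Nat.card {w : Fin (n + 1) → Fin 3 // Function.Surjective w ∧
      (changes (Setoid.ker w) = 2 * g + 3 ∨ changes (Setoid.ker w) = 2 * g + 4)} =
      #{w : Fin (n + 1) → Fin 3 | ch w = 2 * g + 3 ∧ Function.Surjective w} +
      #{w : Fin (n + 1) → Fin 3 | ch w = 2 * g + 4 ∧ Function.Surjective w} := by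
    rw [← card_union_of_disjoint]
    · rw [Nat.card_eq_fintype_card, Fintype.card_subtype]
      congr 1
      ext w
      simp only [mem_filter, mem_univ, true_and, mem_union, changes_ker]
      tauto
    · rw [Finset.disjoint_left]
      intro w h1 h2
      simp only [mem_filter, mem_univ, true_and] at h1 h2
      omega
  rw [h2] at h
  have h3 := congrArg (fun k : ℕ => (k : ℚ)) h
  push_cast at h3
  rw [card_surj _ _ (by omega), card_surj _ _ (by omega)] at h3
  rw [← h3]
  have e1 : (-1 : ℚ) ^ (2 * g + 3) = -1 := Odd.neg_one_pow ⟨g + 1, by ring⟩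
  have e2 : (-1 : ℚ) ^ (2 * g + 4) = 1 := Even.neg_one_pow ⟨g + 2, by ring⟩
  rw [e1, e2]
  ring

/-- **Theorem.** For all `n ≥ 1` and `g ≥ 0`, the number of genus-`g` set partitions of `[n]` into
three blocks is `(4^{g+1} - 1)(n - g - 1) / (3 (g + 2)) * binom(n, 2g + 3)`. -/
theorem result (n g : ℕ) (hn : 1 ≤ n) :
    (S n 3 g : ℚ) =
      ((4 : ℚ) ^ (g + 1) - 1) * ((n : ℚ) - g - 1) / (3 * ((g : ℚ) + 2)) * n.choose (2 * g + 3) := by
  obtain ⟨m, rfl⟩ : ∃ m, n = m + 1 := ⟨n - 1, by omega⟩
  have h := six_mul_S m g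
  have h1 := Nat.choose_succ_right_eq (m + 1) (2 * g + 3)
  have h2 : ((m + 1).choose (2 * g + 4) : ℚ) * (2 * g + 4) =
      (m + 1).choose (2 * g + 3) * ((m : ℚ) + 1 - (2 * g + 3)) := by
    rcases le_or_gt (2 * g + 3) (m + 1) with h3 | h3
    · have h4 := congrArg (fun k : ℕ => (k : ℚ)) h1
      rw [Nat.cast_mul, Nat.cast_mul, Nat.cast_sub h3] at h4
      push_cast at h4 ⊢
      linear_combination h4
    · rw [Nat.choose_eq_zero_of_lt h3, Nat.choose_eq_zero_of_lt (by omega : m + 1 < 2 * g + 4)]
      simp
  have h5 : (2 : ℚ) ^ (2 * g + 3) = 2 * 4 ^ (g + 1) := by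
    rw [show 2 * g + 3 = 1 + 2 * (g + 1) by ring, pow_add, pow_mul]
    norm_num
  have h6 : (2 : ℚ) ^ (2 * g + 4) = 4 * 4 ^ (g + 1) := by
    rw [show 2 * g + 4 = 2 + 2 * (g + 1) by ring, pow_add, pow_mul]
    norm_num
  rw [h5, h6] at h
  have hg : ((g : ℚ) + 2) ≠ 0 := by positivity
  push_cast
  field_simp

  linear_combination (((g : ℚ) + 2) / 2) * h + (4 ^ (g + 1) - 1) * h2

end Pool.Agent.Results.MP_752880_co.ThreeBlocks
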